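import Pool.Agent.helper34.MO.SpecC

/-! Row mo:INV0 (helper92). -/

set_option autoImplicit false

namespace Pool.Agent.MO

open Complex Finset

private theorem INV0_k (m : ℂ) (h : Reg m) : ‖m - I‖ ^ 2 ≤ 1.0523 := by
  obtain ⟨h1, h2, h3, h4⟩ := h
  have e1 : ‖m - I‖ ^ 2 = m.re ^ 2 + (m.im - 1) ^ 2 := by
    rw [Complex.sq_norm, Complex.normSq_apply]
    simp
    ring
  have e2 : ‖m‖ ^ 2 = m.re ^ 2 + m.im ^ 2 := by
    rw [Complex.sq_norm, Complex.normSq_apply]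
    ring
  have h5 : ‖m‖ ^ 2 ≤ 0.1053 ^ 2 := pow_le_pow_left₀ (norm_nonneg m) h4 2
  rw [e1]
  nlinarith

private theorem INV0_a (m : ℂ) (h : Reg m) : m.re ≤ 0.1053 :=
  (Complex.re_le_norm m).trans h.2.2.2

/-- the two real inequalities -/
private theorem INV0_up (u v x y : ℝ) (hu : 10 ≤ u) (hv : |v| ≤ 0.2 * u) (hx0 : 0 ≤ x) (hx : x ≤ 1.04163)
    (hy : y ≤ 0.21494) : y * u - x * v ≤ 0.0416 * (u ^ 2 + v ^ 2) := by
  obtain ⟨hv1, hv2⟩ := abs_le.1 hv
  have h1 : y * u ≤ 0.21494 * u := mul_le_mul_of_nonneg_right hy (by linarith)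
  have h2 : x * (-v) ≤ 1.04163 * (0.2 * u) + 0 * u - (1.04163 * (0.2 * u + v)) ∨ v ≥ 0 := by
    by_cases h : 0 ≤ v
    · exact Or.inr h
    · left
      have := mul_le_mul_of_nonneg_right hx (show 0 ≤ -v by linarith)
      linarith
  have hsq : v ^ 2 ≥ 0.4 * u * (-v) - 0.04 * u ^ 2 := by nlinarith [sq_nonneg (v + 0.2 * u)]
  rcases h2 with h2 | h2
  · have h3 : y * u - x * v ≤ 0.21494 * u + 1.04163 * (-v) := by linarith
    have h4 : 0.0416 * (u ^ 2 + v ^ 2) ≥ 0.0416 * (0.96 * u ^ 2 + 0.4 * u * (-v)) := by nlinarith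
    have h5 : u ^ 2 ≥ 10 * u := by nlinarith
    by_cases hneg : 0 ≤ v
    · have h6 : x * v ≥ 0 := mul_nonneg hx0 hneg
      nlinarith
    · have h6 : u * (-v) ≥ 10 * (-v) := mul_le_mul_of_nonneg_right hu (by linarith)
      nlinarith
  · have h6 : x * v ≥ 0 := mul_nonneg hx0 h2
    nlinarith [sq_nonneg v]

private theorem INV0_lo (u v x y : ℝ) (hu : 10 ≤ u) (hv : |v| ≤ 0.2 * u) (hx0 : 0 ≤ x) (hx : x ≤ 1.04163)
    (hy : 0 ≤ y) : -0.0206 * (u ^ 2 + v ^ 2) ≤ y * u - x * v := by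
  obtain ⟨hv1, hv2⟩ := abs_le.1 hv
  have h1 : 0 ≤ y * u := mul_nonneg hy (by linarith)
  by_cases h : 0 ≤ v
  · have h2 : x * v ≤ 1.04163 * v := mul_le_mul_of_nonneg_right hx h
    have hsq : v ^ 2 ≥ 0.4 * u * v - 0.04 * u ^ 2 := by nlinarith [sq_nonneg (v - 0.2 * u)]
    have h5 : u ^ 2 ≥ 10 * u := by nlinarith
    have h6 : u * v ≥ 10 * v := mul_le_mul_of_nonneg_right hu h
    nlinarith
  · have h2 : x * v ≤ 0 := mul_nonpos_of_nonneg_of_nonpos hx0 (by linarith)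
    nlinarith [sq_nonneg v, sq_nonneg u]

theorem INV0 : INV0_stmt := by
  intro t P ml mr ht htP hP hl hr
  have hu : 10 ≤ P.re := ht.trans htP
  have hu0 : 0 < P.re := by linarith
  have ht0 : 0 < t := by linarith
  have hPn : t ≤ ‖P‖ := htP.trans (Complex.re_le_norm P)
  have hPn0 : 0 < ‖P‖ := lt_of_lt_of_le ht0 hPn
  have h2t : 2 / t ≤ 0.2 := by
    rw [div_le_iff₀ ht0]
    linarith
  have hv : |P.im| ≤ 0.2 * P.re := hP.trans (mul_le_mul_of_nonneg_right h2t hu0.le)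
  have hkl := INV0_k ml hl
  have hkr := INV0_k mr hr
  have hal := INV0_a ml hl
  have har := INV0_a mr hr
  obtain ⟨a0, b0, b1, -⟩ := hl
  obtain ⟨c0, d0, d1, -⟩ := hr
  set z : ℂ := -((ml - I) * (mr - I)) with hz
  have hzre : z.re = (1 - ml.im) * (1 - mr.im) - ml.re * mr.re := by
    rw [hz]
    simp
    ring
  have hzim : z.im = ml.re * (1 - mr.im) + (1 - ml.im) * mr.re := by
    rw [hz]
    simp
    ring
  have hac : ml.re * mr.re ≤ 0.1053 * 0.1053 := mul_le_mul hal har c0 (by norm_num)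
  have hac0 : 0 ≤ ml.re * mr.re := mul_nonneg a0 c0
  have hbd : (1 - ml.im) * (1 - mr.im) ≤ 1.0206 * 1.0206 :=
    mul_le_mul (by linarith) (by linarith) (by linarith) (by norm_num)
  have hbd0 : 0.9584 * 0.9584 ≤ (1 - ml.im) * (1 - mr.im) :=
    mul_le_mul (by linarith) (by linarith) (by norm_num) (by linarith)
  have hx1 : z.re ≤ 1.04163 := by rw [hzre]; linarith
  have hx0 : 0.9 ≤ z.re := by rw [hzre]; linarith
  have hy0 : 0 ≤ z.im := by
    rw [hzim]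
    exact add_nonneg (mul_nonneg a0 (by linarith)) (mul_nonneg (by linarith) c0)
  have hy1 : z.im ≤ 0.21494 := by
    rw [hzim]
    have h1 : ml.re * (1 - mr.im) ≤ 0.1053 * 1.0206 := mul_le_mul hal (by linarith) (by linarith) (by norm_num)
    have h2 : (1 - ml.im) * mr.re ≤ 1.0206 * 0.1053 := mul_le_mul (by linarith) har c0 (by norm_num)
    linarith
  have hN : Complex.normSq P = P.re ^ 2 + P.im ^ 2 := by
    rw [Complex.normSq_apply]
    ring
  have hN0 : 0 < P.re ^ 2 + P.im ^ 2 := by positivity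
  refine ⟨⟨?_, ?_, ?_, ?_⟩, ?_, ?_⟩
  · rw [Complex.div_re, hN, ← add_div]
    refine div_nonneg ?_ hN0.le
    obtain ⟨hv1, hv2⟩ := abs_le.1 hv
    have h1 : 0.9 * P.re ≤ z.re * P.re := mul_le_mul_of_nonneg_right hx0 hu0.le
    have h2 : z.im * (-P.im) ≤ 0.21494 * (0.2 * P.re) := by
      have h3 : z.im * (-P.im) ≤ z.im * (0.2 * P.re) := mul_le_mul_of_nonneg_left (by linarith) hy0
      exact h3.trans (mul_le_mul_of_nonneg_right hy1 (by linarith))
    linarith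
  · rw [Complex.div_im, hN, ← sub_div, le_div_iff₀ hN0]
    exact INV0_lo P.re P.im z.re z.im hu hv (by linarith) hx1 hy0
  · rw [Complex.div_im, hN, ← sub_div, div_le_iff₀ hN0]
    exact INV0_up P.re P.im z.re z.im hu hv (by linarith) hx1 hy1
  · rw [norm_div, hz, norm_neg, norm_mul, div_le_iff₀ hPn0]
    have h1 : ‖ml - I‖ * ‖mr - I‖ ≤ 1.0523 := by nlinarith [sq_nonneg (‖ml - I‖ - ‖mr - I‖)]
    nlinarith
  · rw [norm_div, norm_pow, div_le_div_iff₀ hPn0 ht0]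
    have h1 : ‖ml - I‖ ^ 2 * t ≤ 1.0523 * t := mul_le_mul_of_nonneg_right hkl ht0.le
    have h2 : 1.0523 * t ≤ 1.053 * ‖P‖ := by nlinarith
    exact h1.trans h2
  · rw [norm_div, norm_pow, div_le_div_iff₀ hPn0 ht0]
    have h1 : ‖mr - I‖ ^ 2 * t ≤ 1.0523 * t := mul_le_mul_of_nonneg_right hkr ht0.le
    have h2 : 1.0523 * t ≤ 1.053 * ‖P‖ := by nlinarith
    exact h1.trans h2

end Pool.Agent.MO
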