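import Pool.Agent.helper34.MO.SpecB

/-! Row mo:NODV (helper92). -/

set_option autoImplicit false

namespace Pool.Agent.MO

open Complex Finset

private theorem NODV_start (A : ℂ) (T : ℝ) (hA : 0 < A.re) (hT : 0 < T) : Acc2 A T (-I) := by
  refine ⟨hA, by simpa using hT, ?_⟩
  simp only [neg_re, I_re, neg_zero, ofReal_re]
  have := mul_pos hA hT
  simpa using this

private theorem NODV_start' (A : ℂ) (T : ℝ) (hA : 0 < A.re) (hT : 0 < T) : Acc2 T A (-I) := by
  refine ⟨by simpa using hT, hA, ?_⟩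
  simp only [neg_re, I_re, neg_zero, ofReal_re]
  have := mul_pos hT hA
  simpa using this

private theorem NODV_psd (z : ℂ) (hz : 0 ≤ z.re) : Psd2 0 z 0 := ⟨le_rfl, hz, by simp⟩

private theorem NODV_arg (T : ℝ) (hT : 0 < T) : arg (T : ℂ) = 0 := Complex.arg_ofReal_of_nonneg hT.le

theorem NODV (hACT : ACT_stmt) (hA2P : A2P_stmt) (hEX2 : EX2_stmt) (hVA : VA_stmt) : NODV_stmt := by
  intro l r l' r' T hl hr hT hrl hrr
  have hL := hACT l' hl
  have hR := hACT r' hr
  set L := bd l' with hLd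
  set R := bd r' with hRd
  have hbd : bd (.nd (some T) l' r') = comb T L R := rfl
  refine ⟨?_, ?_, ?_⟩
  · intro h2 h1 f A hA hf
    -- the environment at (a, c)
    have hacc : Acc2 (A + L.al) ((T : ℂ) + L.be) (-I + L.mu) :=
      hA2P.1 A T (-I) L.al L.be L.mu (NODV_start A T hA hT) hL
    have hC := (hEX2 _ _ _ hacc).2
    have hG : Good1 (f + L.psi + arg (A + L.al)) ((T : ℂ) + L.be - (-I + L.mu) ^ 2 / (A + L.al)) := by
      intro p hp
      have hok := (hVA f A (T + p) l hA hf (by linarith) hrl).1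
      have h3 := h2 _ hok
      unfold tot ph2 at h3
      simp only at h3
      rw [← hLd] at h3
      have e : ((T : ℂ) + L.be - (-I + L.mu) ^ 2 / (A + L.al)) + (p : ℂ) =
          ((T + p : ℝ) : ℂ) + L.be - (-I + L.mu) ^ 2 / (A + L.al) := by
        push_cast
        ring
      rw [e]
      linarith
    have h4 := h1 _ _ hC hG
    rw [← hRd] at h4
    have hacc2 : Acc2 (A + L.al) (pv T L R) (-I + L.mu) := by
      have := hA2P.1 _ _ _ 0 R.al 0 hacc (NODV_psd R.al hR.1)
      rw [add_zero, add_zero] at this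
      exact this
    have h5 := (hEX2 _ _ _ hacc2).1
    unfold ph2 at h5
    have e1 : (T : ℂ) + L.be - (-I + L.mu) ^ 2 / (A + L.al) + R.al = pv T L R - (-I + L.mu) ^ 2 / (A + L.al) := by
      unfold pv
      ring
    rw [e1] at h4
    rw [hbd]
    show 0 ≤ f + (L.psi + R.psi + arg (pv T L R)) + arg (A + (L.al - (L.mu - I) ^ 2 / pv T L R))
    have e2 : A + (L.al - (L.mu - I) ^ 2 / pv T L R) = A + L.al - (-I + L.mu) ^ 2 / pv T L R := by ring
    rw [e2]
    linarith
  · intro h1 h2 f A hA hf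
    have hacc : Acc2 ((T : ℂ) + R.al) (A + R.be) (-I + R.mu) :=
      hA2P.1 T A (-I) R.al R.be R.mu (NODV_start' A T hA hT) hR
    have hsw : ∀ q : ℝ, 0 < q → Acc2 (A + R.be) ((q : ℂ) + R.al) (-I + R.mu) := by
      intro q hq
      obtain ⟨a1, a2, a3⟩ := hA2P.1 q A (-I) R.al R.be R.mu (NODV_start' A q hA hq) hR
      exact ⟨a2, a1, by rw [mul_comm]; exact a3⟩
    have hC := (hEX2 _ _ _ (hsw T hT)).2
    have hG : Good1 (f + R.psi + arg (A + R.be)) ((T : ℂ) + R.al - (-I + R.mu) ^ 2 / (A + R.be)) := by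
      intro p hp
      have hok := (hVA f A (T + p) r hA hf (by linarith) hrr).2
      have h3 := h2 _ hok
      unfold tot at h3
      simp only at h3
      rw [← hRd, ← (hEX2 _ _ _ (hsw (T + p) (by linarith))).1] at h3
      unfold ph2 at h3
      have e : ((T : ℂ) + R.al - (-I + R.mu) ^ 2 / (A + R.be)) + (p : ℂ) =
          ((T + p : ℝ) : ℂ) + R.al - (-I + R.mu) ^ 2 / (A + R.be) := by
        push_cast
        ring
      rw [e]
      linarith
    have h4 := h1 _ _ hC hG
    rw [← hLd] at h4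
    have hacc2 : Acc2 (A + R.be) (pv T L R) (-I + R.mu) := by
      have := hA2P.1 _ _ _ 0 L.be 0 (hsw T hT) (NODV_psd L.be hL.2.1)
      rw [add_zero, add_zero] at this
      have e : (T : ℂ) + R.al + L.be = pv T L R := by
        unfold pv
        ring
      rw [e] at this
      exact this
    have h5 := (hEX2 _ _ _ hacc2).1
    unfold ph2 at h5
    have e1 : (T : ℂ) + R.al - (-I + R.mu) ^ 2 / (A + R.be) + L.be = pv T L R - (-I + R.mu) ^ 2 / (A + R.be) := by
      unfold pv
      ring
    rw [e1] at h4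
    rw [hbd]
    show 0 ≤ f + (L.psi + R.psi + arg (pv T L R)) + arg (A + (R.be - (R.mu - I) ^ 2 / pv T L R))
    have e2 : A + (R.be - (R.mu - I) ^ 2 / pv T L R) = A + R.be - (-I + R.mu) ^ 2 / pv T L R := by ring
    rw [e2]
    linarith
  · intro h1 h2
    have hG : Good1 L.psi ((T : ℂ) + L.be) := by
      intro p hp
      have hTp : 0 < T + p := by linarith
      have h3 := h1 0 ((T + p : ℝ) : ℂ) (by rw [ofReal_re]; exact hTp) (by
        intro q hq
        have e : ((T + p : ℝ) : ℂ) + (q : ℂ) = ((T + p + q : ℝ) : ℂ) := by push_cast; ring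
        rw [e, NODV_arg _ (by linarith), add_zero])
      rw [← hLd] at h3
      have e : (T : ℂ) + L.be + (p : ℂ) = ((T + p : ℝ) : ℂ) + L.be := by
        push_cast
        ring
      rw [e]
      linarith
    have hre : 0 < ((T : ℂ) + L.be).re := by
      rw [add_re, ofReal_re]
      have := hL.2.1
      linarith
    have h4 := h2 _ _ hre hG
    rw [← hRd] at h4
    show 0 ≤ (bd (.nd (some T) l' r')).psi
    rw [hbd]
    show 0 ≤ L.psi + R.psi + arg (pv T L R)
    unfold pv
    linarith

end Pool.Agent.MO
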